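import Mathlib

/-! An Eulerian binary matroid `M` with arboricity 3 and `c₂(M) = 4`. -/

namespace Pool.Agent.Results.MP_a03d73_co.ArboricityFails

open Finset

/-- `F_2^n`. -/
abbrev V (n : ℕ) : Type := Fin n → ZMod 2

/-- The sum of the elements is zero. -/
def IsEulerian {n : ℕ} (M : Finset (V n)) : Prop := ∑ x ∈ M, x = 0

/-- A circuit: an inclusion-minimal nonempty Eulerian set of nonzero vectors. -/
def IsCircuit {n : ℕ} (C : Finset (V n)) : Prop :=
  C.Nonempty ∧ 0 ∉ C ∧ IsEulerian C ∧ ∀ D ⊆ C, D.Nonempty → IsEulerian D → D = C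

/-- A circuit odd-cover of `M` by `t` circuits: the symmetric difference of the circuits is `M`. -/
def IsOddCover {n : ℕ} (M : Finset (V n)) (t : ℕ) (C : Fin t → Finset (V n)) : Prop :=
  (∀ i, IsCircuit (C i)) ∧ ∀ x, x ∈ M ↔ Odd (univ.filter (fun i => x ∈ C i)).card

/-- The least number of circuits in a circuit odd-cover of `M`. -/
noncomputable def c2 {n : ℕ} (M : Finset (V n)) : ℕ :=
  sInf {t | ∃ C : Fin t → Finset (V n), IsOddCover M t C}

/-- The least number of linearly independent sets whose union is `M`. -/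
noncomputable def arboricity {n : ℕ} (M : Finset (V n)) : ℕ :=
  sInf {t | ∃ I : Fin t → Finset (V n),
    (∀ i, LinearIndepOn (ZMod 2) id (I i : Set (V n))) ∧ M = univ.biUnion I}

/-- Linear independence over the field with two elements. -/
theorem indep_iff {ι W : Type*} [DecidableEq ι] [AddCommGroup W] [Module (ZMod 2) W]
    (v : ι → W) (S : Finset ι) :
    LinearIndepOn (ZMod 2) v (S : Set ι) ↔ ∀ T ⊆ S, ∑ x ∈ T, v x = 0 → T = ∅ := by
  rw [linearIndepOn_finset_iff]
  constructor
  · intro h T hT hs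
    have h1 := h (fun i => if i ∈ T then 1 else 0) (by
      simp only [ite_smul, one_smul, zero_smul]
      rw [Finset.sum_ite_mem, Finset.inter_eq_right.2 hT]
      exact hs)
    rw [Finset.eq_empty_iff_forall_notMem]
    intro i hi
    have h2 := h1 i (hT hi)
    rw [if_pos hi] at h2
    exact one_ne_zero h2
  · intro h f hf i hi
    have h1 : ∑ x ∈ S.filter (fun x => f x ≠ 0), v x = 0 := by
      rw [← hf, Finset.sum_filter]
      apply Finset.sum_congr rfl
      intro x _
      have h2 : ∀ a : ZMod 2, a = 0 ∨ a = 1 := by decide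
      rcases h2 (f x) with h3 | h3
      · rw [h3]; simp
      · rw [h3]; simp
    have h2 := h _ (Finset.filter_subset _ _) h1
    by_contra h3
    have h4 : i ∈ S.filter (fun x => f x ≠ 0) := Finset.mem_filter.2 ⟨hi, h3⟩
    rw [h2] at h4
    exact absurd h4 (Finset.notMem_empty i)

theorem card_le_of_indep {ι W : Type*} [DecidableEq ι] [AddCommGroup W] [Module (ZMod 2) W]
    [Module.Finite (ZMod 2) W] (v : ι → W) (S : Finset ι)
    (h : LinearIndepOn (ZMod 2) v (S : Set ι)) : S.card ≤ Module.finrank (ZMod 2) W := by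
  have h1 := LinearIndependent.fintype_card_le_finrank (R := ZMod 2) (b := fun i : (S : Set ι) => v i) h
  simpa using h1

/-- Removing an element from a circuit leaves an independent set, for every linear map which is
injective enough. -/
theorem circuit_card_le {n : ℕ} {W : Type*} [AddCommGroup W] [Module (ZMod 2) W]
    [Module.Finite (ZMod 2) W] (C : Finset (V n)) (hC : IsCircuit C) (p : V n →ₗ[ZMod 2] W)
    (hp : ∀ T ⊆ C, p (∑ x ∈ T, x) = 0 → ∑ x ∈ T, x = 0) :
    C.card ≤ Module.finrank (ZMod 2) W + 1 := by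
  obtain ⟨⟨c, hc⟩, _, _, hmin⟩ := hC
  have h1 : LinearIndepOn (ZMod 2) p ((C.erase c : Finset (V n)) : Set (V n)) := by
    rw [indep_iff]
    intro T hT hs
    by_contra hne
    have hT' : T ⊆ C := hT.trans (Finset.erase_subset c C)
    have h2 : ∑ x ∈ T, x = 0 := hp T hT' (by rw [map_sum]; exact hs)
    have h3 := hmin T hT' (Finset.nonempty_iff_ne_empty.2 hne) h2
    have h4 : c ∈ T := h3 ▸ hc
    exact (Finset.mem_erase.1 (hT h4)).1 rfl
  have h2 := card_le_of_indep p _ h1
  rw [Finset.card_erase_of_mem hc] at h2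
  omega

/-- An independent set together with its sum is a circuit. -/
theorem circuit_of_indep {n : ℕ} (X : Finset (V n)) (hX : LinearIndepOn (ZMod 2) id (X : Set (V n)))
    (hne : X.Nonempty) (hz : ∑ x ∈ X, x ∉ X) : IsCircuit (insert (∑ x ∈ X, x) X) := by
  rw [indep_iff] at hX
  simp only [id] at hX
  have hadd : ∀ y : V n, y + y = 0 := fun y => by
    ext i
    have h2 : ∀ a : ZMod 2, a + a = 0 := by decide
    exact h2 (y i)
  refine ⟨⟨_, Finset.mem_insert_self _ _⟩, ?_, ?_, ?_⟩
  · intro h0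
    rcases Finset.mem_insert.1 h0 with h | h
    · exact hne.ne_empty (hX X (Finset.Subset.refl X) h.symm)
    · have h1 := hX {0} (Finset.singleton_subset_iff.2 h) (by simp)
      exact absurd h1 (Finset.singleton_ne_empty 0)
  · unfold IsEulerian
    rw [Finset.sum_insert hz]
    exact hadd _
  · intro D hD hDne hDE
    unfold IsEulerian at hDE
    have hzD : ∑ x ∈ X, x ∈ D := by
      by_contra hzD
      have h1 : D ⊆ X := fun x hx =>
        (Finset.mem_insert.1 (hD hx)).resolve_left (fun h => hzD (h ▸ hx))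
      exact hDne.ne_empty (hX D h1 hDE)
    -- the complement of `D` in `X` has sum zero
    have h1 : D.erase (∑ x ∈ X, x) ⊆ X := by
      intro x hx
      obtain ⟨h2, h3⟩ := Finset.mem_erase.1 hx
      exact (Finset.mem_insert.1 (hD h3)).resolve_left h2
    have h2 : ∑ x ∈ D.erase (∑ x ∈ X, x), x = ∑ x ∈ X, x := by
      have h3 : (∑ x ∈ X, x) + ∑ x ∈ D.erase (∑ x ∈ X, x), x = ∑ x ∈ D, x :=
        Finset.add_sum_erase D (fun x => x) hzD
      rw [hDE] at h3
      have h4 := hadd (∑ x ∈ X, x)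
      have h5 : ∑ x ∈ D.erase (∑ x ∈ X, x), x = -(∑ x ∈ X, x) := by
        rw [eq_neg_iff_add_eq_zero, add_comm]; exact h3
      rw [h5, neg_eq_iff_add_eq_zero]
      exact h4
    have h3 : ∑ x ∈ X \ D.erase (∑ x ∈ X, x), x = 0 := by
      have h4 : ∑ x ∈ X \ D.erase (∑ x ∈ X, x), x + ∑ x ∈ D.erase (∑ x ∈ X, x), x = ∑ x ∈ X, x :=
        Finset.sum_sdiff (f := fun x => x) h1
      rw [h2] at h4
      simpa using h4
    have h4 := hX _ Finset.sdiff_subset h3
    rw [Finset.sdiff_eq_empty_iff_subset] at h4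
    apply Finset.Subset.antisymm hD
    intro x hx
    rcases Finset.mem_insert.1 hx with rfl | hx
    · exact hzD
    · exact Finset.mem_of_mem_erase (h4 hx)

/-- Splitting `F_2^8` into two copies of `F_2^4`. -/
noncomputable def E : (V 4 × V 4) ≃ₗ[ZMod 2] V 8 :=
  (LinearEquiv.sumArrowLequivProdArrow (Fin 4) (Fin 4) (ZMod 2) (ZMod 2)).symm ≪≫ₗ
    LinearEquiv.funCongrLeft (ZMod 2) (ZMod 2) (finSumFinEquiv (m := 4) (n := 4)).symm

/-- Three disjoint bases of `F_2^4`. -/
def b : Fin 3 → Fin 4 → V 4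
  | 0 => ![![1,0,0,0], ![1,0,0,1], ![1,0,1,0], ![0,1,0,0]]
  | 1 => ![![0,1,0,1], ![0,1,1,0], ![0,1,1,1], ![1,1,0,0]]
  | 2 => ![![1,0,1,1], ![1,1,0,1], ![1,1,1,0], ![1,1,1,1]]

theorem b_indep_aux : ∀ i, ∀ g : Fin 4 → ZMod 2, ∑ k, g k • b i k = 0 → ∀ k, g k = 0 := by
  decide +kernel

theorem b_indep (i : Fin 3) : LinearIndependent (ZMod 2) (b i) :=
  Fintype.linearIndependent_iff.2 (b_indep_aux i)

theorem b_disj : ∀ i j, i ≠ j → ∀ k l, b i k ≠ b j l := by decide +kernel

theorem b_zero : ∀ i k, b i k ≠ 0 := by decide +kernel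

/-- The sums of the bases. -/
def s (i : Fin 3) : V 4 := ∑ k, b i k

theorem s_ne : ∀ i j, i ≠ j → s i ≠ s j := by decide +kernel

theorem s_zero : ∀ i, s i ≠ 0 := by decide +kernel

theorem s_sum : s 0 + s 1 + s 2 = 0 := by decide +kernel

/-- The basis of `F_2^8` made of two copies of `b i`. -/
noncomputable def xf (i : Fin 3) : Fin 4 ⊕ Fin 4 → V 8 :=
  E ∘ Sum.elim (LinearMap.inl (ZMod 2) (V 4) (V 4) ∘ b i) (LinearMap.inr (ZMod 2) (V 4) (V 4) ∘ b i)

theorem xf_indep (i : Fin 3) : LinearIndependent (ZMod 2) (xf i) :=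
  (linearIndependent_inl_union_inr' (b_indep i) (b_indep i)).map' E.toLinearMap
    (LinearMap.ker_eq_bot.2 E.injective)

noncomputable def X (i : Fin 3) : Finset (V 8) := univ.image (xf i)

noncomputable def z (i : Fin 3) : V 8 := E (s i, s i)

noncomputable def M : Finset (V 8) := univ.biUnion X

theorem X_indep (i : Fin 3) : LinearIndepOn (ZMod 2) id (X i : Set (V 8)) := by
  have h := (xf_indep i).linearIndepOn_id
  unfold X
  rw [Finset.coe_image, Finset.coe_univ, Set.image_univ]
  exact h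

theorem X_card (i : Fin 3) : (X i).card = 8 := by
  unfold X
  rw [Finset.card_image_of_injective _ (xf_indep i).injective]
  rfl

theorem mem_X {i : Fin 3} {x : V 8} : x ∈ X i ↔ (∃ k, x = E (b i k, 0)) ∨ ∃ k, x = E (0, b i k) := by
  unfold X xf
  simp only [Finset.mem_image, Finset.mem_univ, true_and, Sum.exists, Function.comp_apply,
    Sum.elim_inl, Sum.elim_inr, LinearMap.inl_apply, LinearMap.inr_apply]
  constructor
  · rintro (⟨k, rfl⟩ | ⟨k, rfl⟩)
    · exact Or.inl ⟨k, rfl⟩
    · exact Or.inr ⟨k, rfl⟩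
  · rintro (⟨k, rfl⟩ | ⟨k, rfl⟩)
    · exact Or.inl ⟨k, rfl⟩
    · exact Or.inr ⟨k, rfl⟩

theorem X_sum (i : Fin 3) : ∑ x ∈ X i, x = z i := by
  unfold X
  rw [Finset.sum_image (fun a _ c _ h => (xf_indep i).injective h)]
  unfold xf
  simp only [Function.comp_apply]
  rw [← map_sum, Fintype.sum_sum_type]
  simp only [Sum.elim_inl, Sum.elim_inr, Function.comp_apply, LinearMap.inl_apply,
    LinearMap.inr_apply]
  unfold z s
  congr 1
  apply Prod.ext
  · simp [Prod.fst_sum]
  · simp [Prod.snd_sum]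

theorem mem_M {x : V 8} : x ∈ M ↔ ∃ i, x ∈ X i := by
  unfold M
  simp

/-- One of the two components of an element of `M` is zero. -/
theorem M_comp {x : V 8} (hx : x ∈ M) : ((E.symm x).1 = 0 ∧ (E.symm x).2 ≠ 0) ∨
    ((E.symm x).2 = 0 ∧ (E.symm x).1 ≠ 0) := by
  obtain ⟨i, hi⟩ := mem_M.1 hx
  rcases mem_X.1 hi with ⟨k, rfl⟩ | ⟨k, rfl⟩
  · right
    simpa using b_zero i k
  · left
    simpa using b_zero i k

theorem z_notMem (i : Fin 3) : z i ∉ M := by
  intro h
  have h1 := M_comp h
  unfold z at h1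
  simp only [LinearEquiv.symm_apply_apply] at h1
  rcases h1 with ⟨h1, _⟩ | ⟨h1, _⟩
  · exact s_zero i h1
  · exact s_zero i h1

theorem X_disj {i j : Fin 3} (hij : i ≠ j) : Disjoint (X i) (X j) := by
  rw [Finset.disjoint_left]
  intro x hi hj
  rcases mem_X.1 hi with ⟨k, rfl⟩ | ⟨k, rfl⟩
  · rcases mem_X.1 hj with ⟨l, h⟩ | ⟨l, h⟩
    · have := E.injective h
      exact b_disj i j hij k l (Prod.ext_iff.1 this).1
    · have := E.injective h
      exact b_zero i k (Prod.ext_iff.1 this).1
  · rcases mem_X.1 hj with ⟨l, h⟩ | ⟨l, h⟩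
    · have := E.injective h
      exact b_zero i k (Prod.ext_iff.1 this).2
    · have := E.injective h
      exact b_disj i j hij k l (Prod.ext_iff.1 this).2

theorem M_card : M.card = 24 := by
  unfold M
  rw [Finset.card_biUnion (fun i _ j _ hij => X_disj hij)]
  simp [X_card]

theorem zero_notMem : (0 : V 8) ∉ M := by
  intro h
  have h1 := M_comp h
  simp at h1

theorem z_sum : z 0 + z 1 + z 2 = 0 := by
  unfold z
  rw [← map_add, ← map_add, Prod.mk_add_mk, Prod.mk_add_mk, s_sum]
  exact map_zero _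

theorem z_ne {i j : Fin 3} (hij : i ≠ j) : z i ≠ z j := by
  intro h
  have := E.injective h
  exact s_ne i j hij (Prod.ext_iff.1 this).1

theorem z_zero (i : Fin 3) : z i ≠ 0 := by
  intro h
  unfold z at h
  rw [LinearEquiv.map_eq_zero_iff] at h
  exact s_zero i (Prod.ext_iff.1 h).1

theorem M_eulerian : IsEulerian M := by
  unfold IsEulerian M
  rw [Finset.sum_biUnion (fun i _ j _ hij => X_disj hij)]
  simp only [X_sum, Fin.sum_univ_three]
  exact z_sum

/-- A circuit meets `M` in at most eight elements, and if it meets `M` in eight elements then it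
has exactly one further element. -/
theorem circuit_bound (C : Finset (V 8)) (hC : IsCircuit C) :
    (C ∩ M).card ≤ 8 ∧ ((C ∩ M).card = 8 → (C \ M).card = 1) := by
  have hf8 : Module.finrank (ZMod 2) (V 8) = 8 := by simp
  have hf4 : Module.finrank (ZMod 2) (V 4) = 4 := by simp
  have h9 : C.card ≤ 9 := by
    have := circuit_card_le C hC LinearMap.id (fun T _ h => h)
    rw [hf8] at this
    exact this
  have hsplit : (C \ M).card + (C ∩ M).card = C.card := Finset.card_sdiff_add_card_inter C M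
  by_cases hCM : C ⊆ M
  · -- the circuit lies in one of the two copies
    have h5 : C.card ≤ 5 := by
      have hsum := hC.2.2.1
      unfold IsEulerian at hsum
      set C1 := C.filter (fun x => (E.symm x).2 = 0) with hC1
      have hrest : ∀ x ∈ C, x ∉ C1 → (E.symm x).1 = 0 := by
        intro x hx hx1
        rcases M_comp (hCM hx) with h | h
        · exact h.1
        · exact absurd (Finset.mem_filter.2 ⟨hx, h.1⟩) hx1
      have hz2 : (E.symm (∑ x ∈ C1, x)).2 = 0 := by
        rw [map_sum, Prod.snd_sum]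
        exact Finset.sum_eq_zero (fun x hx => (Finset.mem_filter.1 hx).2)
      have hz1 : (E.symm (∑ x ∈ C1, x)).1 = 0 := by
        have h1 : (E.symm (∑ x ∈ C, x)).1 = 0 := by rw [hsum]; simp
        rw [map_sum, Prod.fst_sum] at h1 ⊢
        rw [← h1]
        exact Finset.sum_subset (Finset.filter_subset _ _) hrest
      have hC1z : ∑ x ∈ C1, x = 0 := by
        have h1 : E.symm (∑ x ∈ C1, x) = 0 := Prod.ext hz1 hz2
        exact (LinearEquiv.map_eq_zero_iff E.symm).1 h1
      by_cases hne : C1.Nonempty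
      · have h1 : C1 = C := hC.2.2.2 C1 (Finset.filter_subset _ _) hne hC1z
        have h2 := circuit_card_le C hC ((LinearMap.fst (ZMod 2) (V 4) (V 4)) ∘ₗ E.symm.toLinearMap) (by
          intro T hT hT0
          have h3 : (E.symm (∑ x ∈ T, x)).2 = 0 := by
            rw [map_sum, Prod.snd_sum]
            apply Finset.sum_eq_zero
            intro x hx
            have h4 := hT hx
            rw [← h1] at h4
            exact (Finset.mem_filter.1 h4).2
          have h4 : E.symm (∑ x ∈ T, x) = 0 := Prod.ext hT0 h3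
          exact (LinearEquiv.map_eq_zero_iff E.symm).1 h4)
        rw [hf4] at h2
        exact h2
      · have h1 : ∀ x ∈ C, (E.symm x).1 = 0 := by
          intro x hx
          exact hrest x hx (fun h => hne ⟨x, h⟩)
        have h2 := circuit_card_le C hC ((LinearMap.snd (ZMod 2) (V 4) (V 4)) ∘ₗ E.symm.toLinearMap) (by
          intro T hT hT0
          have h3 : (E.symm (∑ x ∈ T, x)).1 = 0 := by
            rw [map_sum, Prod.fst_sum]
            exact Finset.sum_eq_zero (fun x hx => h1 x (hT hx))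
          have h4 : E.symm (∑ x ∈ T, x) = 0 := Prod.ext h3 hT0
          exact (LinearEquiv.map_eq_zero_iff E.symm).1 h4)
        rw [hf4] at h2
        exact h2
    constructor
    · omega
    · intro h; omega
  · have h1 : 1 ≤ (C \ M).card := by
      rw [Nat.one_le_iff_ne_zero, Ne, Finset.card_eq_zero, Finset.sdiff_eq_empty_iff_subset]
      exact hCM
    constructor
    · omega
    · intro h; omega

/-- Every circuit odd-cover of `M` has at least four circuits. -/
theorem four_le (t : ℕ) (C : Fin t → Finset (V 8)) (h : IsOddCover M t C) : 4 ≤ t := by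
  obtain ⟨hC, hodd⟩ := h
  have h1 : ∑ i, (C i ∩ M).card = ∑ x ∈ M, (univ.filter (fun i => x ∈ C i)).card := by
    simp only [Finset.card_eq_sum_ones, Finset.sum_filter]
    rw [Finset.sum_comm]
    apply Finset.sum_congr rfl
    intro i _
    rw [← Finset.sum_filter, Finset.filter_mem_eq_inter, Finset.inter_comm]
  have h2 : ∑ i, (C i \ M).card = ∑ x ∈ univ \ M, (univ.filter (fun i => x ∈ C i)).card := by
    simp only [Finset.card_eq_sum_ones, Finset.sum_filter]
    rw [Finset.sum_comm]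
    apply Finset.sum_congr rfl
    intro i _
    rw [← Finset.sum_filter]
    apply Finset.sum_congr _ (fun _ _ => rfl)
    ext x
    simp [and_comm]
  have h3 : 24 ≤ ∑ i, (C i ∩ M).card := by
    rw [h1, ← M_card, Finset.card_eq_sum_ones]
    apply Finset.sum_le_sum
    intro x hx
    exact ((hodd x).1 hx).pos
  have h4 : ∑ i, (C i ∩ M).card ≤ ∑ _i : Fin t, 8 :=
    Finset.sum_le_sum (fun i _ => (circuit_bound (C i) (hC i)).1)
  have h5 : ∑ _i : Fin t, 8 = 8 * t := by simp [mul_comm]
  have h6 : Even (∑ i, (C i \ M).card) := by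
    rw [h2]
    apply Finset.even_sum
    intro x hx
    rw [← Nat.not_odd_iff_even, ← hodd x]
    exact (Finset.mem_sdiff.1 hx).2
  by_contra hlt
  have ht : t = 3 := by omega
  have h7 : ∀ i ∈ (univ : Finset (Fin t)), (C i ∩ M).card = 8 := by
    apply (Finset.sum_eq_sum_iff_of_le (fun i _ => (circuit_bound (C i) (hC i)).1)).1
    omega
  have h8 : ∑ i, (C i \ M).card = 3 := by
    rw [Finset.sum_congr rfl (fun i hi => (circuit_bound (C i) (hC i)).2 (h7 i hi))]
    simp [ht]
  rw [h8] at h6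
  exact absurd h6 (by decide)

/-- The four circuits. -/
noncomputable def C4 : Fin 4 → Finset (V 8) :=
  ![insert (z 0) (X 0), insert (z 1) (X 1), insert (z 2) (X 2), {z 0, z 1, z 2}]

theorem circ_X (i : Fin 3) : IsCircuit (insert (z i) (X i)) := by
  have h := circuit_of_indep (X i) (X_indep i) (Finset.card_pos.1 (by rw [X_card]; norm_num)) (by
    rw [X_sum]
    exact fun h => z_notMem i (mem_M.2 ⟨i, h⟩))
  rw [X_sum] at h
  exact h

theorem circ_z : IsCircuit ({z 0, z 1, z 2} : Finset (V 8)) := by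
  have h01 : z 0 ≠ z 1 := z_ne (by decide)
  have hadd : ∀ y : V 8, y + y = 0 := fun y => by
    ext i
    have h2 : ∀ a : ZMod 2, a + a = 0 := by decide
    exact h2 (y i)
  have hneg : ∀ x y : V 8, x + y = 0 → x = y := by
    intro x y h
    have := hadd y
    have h1 : x + y = y + y := by rw [h, this]
    exact add_right_cancel h1
  have hsum : ∑ x ∈ ({z 1, z 2} : Finset (V 8)), x = z 0 := by
    rw [Finset.sum_pair (z_ne (by decide))]
    symm
    apply hneg
    rw [← add_assoc]
    exact z_sum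
  have hind : LinearIndepOn (ZMod 2) id (({z 1, z 2} : Finset (V 8)) : Set (V 8)) := by
    rw [indep_iff]
    intro T hT h0
    simp only [id] at h0
    have hT' := Finset.mem_powerset.2 hT
    by_contra hne
    have h1 : T.card ≤ 2 := (Finset.card_le_card hT).trans (Finset.card_le_two)
    rcases Nat.lt_or_ge T.card 2 with h2 | h2
    · have h3 : T.card = 1 := by
        have := Finset.card_pos.2 (Finset.nonempty_iff_ne_empty.2 hne)
        omega
      obtain ⟨y, rfl⟩ := Finset.card_eq_one.1 h3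
      rw [Finset.sum_singleton] at h0
      have h4 := hT (Finset.mem_singleton_self y)
      rw [Finset.mem_insert, Finset.mem_singleton] at h4
      rcases h4 with h4 | h4
      · exact z_zero 1 (h4 ▸ h0)
      · exact z_zero 2 (h4 ▸ h0)
    · have h3 : T = {z 1, z 2} := Finset.eq_of_subset_of_card_le hT (Finset.card_le_two.trans h2)
      rw [h3, hsum] at h0
      exact z_zero 0 h0
  have h := circuit_of_indep _ hind ⟨z 1, by simp⟩ (by
    rw [hsum]
    intro h
    rw [Finset.mem_insert, Finset.mem_singleton] at h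
    rcases h with h | h
    · exact h01 h
    · exact z_ne (by decide : (0 : Fin 3) ≠ 2) h)
  rw [hsum] at h
  exact h

/-- The propositional core of `cover4`. -/
theorem parity_core (a0 a1 a2 c0 c1 c2 : Prop) [Decidable a0] [Decidable a1] [Decidable a2]
    [Decidable c0] [Decidable c1] [Decidable c2]
    [Decidable (a0 ∨ c0)] [Decidable (a1 ∨ c1)] [Decidable (a2 ∨ c2)]
    [Decidable (a0 ∨ a1 ∨ a2)]
    (h01 : a0 → ¬ a1) (h02 : a0 → ¬ a2) (h12 : a1 → ¬ a2)
    (d01 : c0 → ¬ c1) (d02 : c0 → ¬ c2) (d12 : c1 → ¬ c2)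
    (k0 : a0 → ¬ (c0 ∨ c1 ∨ c2)) (k1 : a1 → ¬ (c0 ∨ c1 ∨ c2)) (k2 : a2 → ¬ (c0 ∨ c1 ∨ c2)) :
    (c0 ∨ c1 ∨ c2) ↔ Odd ((if a0 ∨ c0 then 1 else 0) + (if a1 ∨ c1 then 1 else 0) +
      (if a2 ∨ c2 then 1 else 0) + (if a0 ∨ a1 ∨ a2 then 1 else 0)) := by
  by_cases a0 <;> by_cases a1 <;> by_cases a2 <;> by_cases c0 <;> by_cases c1 <;> by_cases c2 <;>
    simp_all [Nat.odd_iff]

theorem cover4 : IsOddCover M 4 C4 := by
  have hz01 : z 0 ≠ z 1 := z_ne (by decide)
  have hz02 : z 0 ≠ z 2 := z_ne (by decide)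
  have hz12 : z 1 ≠ z 2 := z_ne (by decide)
  constructor
  · intro i
    fin_cases i
    · exact circ_X 0
    · exact circ_X 1
    · exact circ_X 2
    · exact circ_z
  · intro x
    have hM : x ∈ M ↔ x ∈ X 0 ∨ x ∈ X 1 ∨ x ∈ X 2 := by
      rw [mem_M]
      constructor
      · rintro ⟨i, hi⟩
        fin_cases i
        · exact Or.inl hi
        · exact Or.inr (Or.inl hi)
        · exact Or.inr (Or.inr hi)
      · rintro (h | h | h)
        · exact ⟨0, h⟩
        · exact ⟨1, h⟩
        · exact ⟨2, h⟩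
    have d01 : x ∈ X 0 → x ∉ X 1 := fun h => Finset.disjoint_left.1 (X_disj (by decide)) h
    have d02 : x ∈ X 0 → x ∉ X 2 := fun h => Finset.disjoint_left.1 (X_disj (by decide)) h
    have d12 : x ∈ X 1 → x ∉ X 2 := fun h => Finset.disjoint_left.1 (X_disj (by decide)) h
    have hzM : ∀ i, x = z i → x ∉ M := fun i h => h ▸ z_notMem i
    rw [Finset.card_filter, Fin.sum_univ_four]
    have e0 : x ∈ C4 0 ↔ x = z 0 ∨ x ∈ X 0 := Finset.mem_insert
    have e1 : x ∈ C4 1 ↔ x = z 1 ∨ x ∈ X 1 := Finset.mem_insert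
    have e2 : x ∈ C4 2 ↔ x = z 2 ∨ x ∈ X 2 := Finset.mem_insert
    have e3 : x ∈ C4 3 ↔ x = z 0 ∨ x = z 1 ∨ x = z 2 := by
      show x ∈ ({z 0, z 1, z 2} : Finset (V 8)) ↔ _
      simp
    rw [hM] at hzM
    rw [hM]
    simp only [e0, e1, e2, e3]
    exact parity_core (x = z 0) (x = z 1) (x = z 2) (x ∈ X 0) (x ∈ X 1) (x ∈ X 2)
      (fun h h' => hz01 (h.symm.trans h')) (fun h h' => hz02 (h.symm.trans h'))
      (fun h h' => hz12 (h.symm.trans h')) d01 d02 d12 (hzM 0) (hzM 1) (hzM 2)

/-- **MP_a03d73_co, Q1, disproof.** There is an Eulerian binary matroid `M ⊆ F_2^8 \ {0}` with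
`a(M) = 3` and `c₂(M) = 4`. -/
theorem result : ∃ M : Finset (V 8), 0 ∉ M ∧ IsEulerian M ∧ arboricity M = 3 ∧ c2 M = 4 := by
  refine ⟨M, zero_notMem, M_eulerian, ?_, ?_⟩
  · have h3 : 3 ∈ {t | ∃ I : Fin t → Finset (V 8),
        (∀ i, LinearIndepOn (ZMod 2) id (I i : Set (V 8))) ∧ M = univ.biUnion I} :=
      ⟨X, X_indep, rfl⟩
    apply le_antisymm (Nat.sInf_le h3)
    apply le_csInf ⟨3, h3⟩
    rintro t ⟨I, hI, hMI⟩
    have h4 : M.card ≤ ∑ i, (I i).card := by
      rw [hMI]
      exact Finset.card_biUnion_le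
    have h5 : ∑ i, (I i).card ≤ ∑ _i : Fin t, 8 := by
      apply Finset.sum_le_sum
      intro i _
      have h6 := card_le_of_indep id (I i) (hI i)
      have h7 : Module.finrank (ZMod 2) (V 8) = 8 := by simp
      rw [h7] at h6
      exact h6
    have h6 : ∑ _i : Fin t, 8 = 8 * t := by simp [mul_comm]
    rw [M_card] at h4
    omega
  · have h4 : 4 ∈ {t | ∃ C : Fin t → Finset (V 8), IsOddCover M t C} := ⟨C4, cover4⟩
    apply le_antisymm (Nat.sInf_le h4)
    apply le_csInf ⟨4, h4⟩
    rintro t ⟨C, hC⟩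
    exact four_le t C hC

end Pool.Agent.Results.MP_a03d73_co.ArboricityFails
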